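import Mathlib.RingTheory.Polynomial.Cyclotomic.Basic
import Pool.Agent.Y709.Kum.Stm
import Pool.Agent.Y709.Lay.Pow

/-!
Job Kum-2 (helper709): the characteristic polynomial of a power of a matrix.
-/

set_option autoImplicit false

open Polynomial

namespace Pool.Agent.Y710.Kum

open Pool.Agent.Y709.Kum (KummerChar)
open Pool.Agent.Y709.Lay (expand_charpolyRev_pow coe_expand)

theorem prod_one_sub {D : Type} [CommRing D] [IsDomain D] {ζ : D} {n : ℕ} (hn : 0 < n)
    (h : IsPrimitiveRoot ζ n) (y : D) :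
    ∏ i ∈ Finset.range n, (1 - ζ ^ i * y) = 1 - y ^ n := by
  classical
  have h1 := h.pow_sub_pow_eq_prod_sub_mul 1 y hn
  rw [one_pow] at h1
  rw [h1]
  have h2 : nthRootsFinset n (1 : D) = (Finset.range n).image fun i => ζ ^ i := by
    ext x
    rw [mem_nthRootsFinset hn, Finset.mem_image]
    constructor
    · intro hx
      have : NeZero n := ⟨hn.ne'⟩
      obtain ⟨i, hi, hix⟩ := h.eq_pow_of_pow_eq_one hx
      exact ⟨i, Finset.mem_range.2 hi, hix⟩
    · rintro ⟨i, -, rfl⟩
      rw [← pow_mul, mul_comm, pow_mul, h.pow_eq_one, one_pow]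
  rw [h2, Finset.prod_image]
  intro i hi j hj hij
  exact h.pow_inj (Finset.mem_range.1 hi) (Finset.mem_range.1 hj) hij

theorem expand_charpolyRev_root {K : Type} [Field K] {ι : Type} [Fintype ι] [DecidableEq ι]
    (A : Matrix ι ι K) (u : K) (hu : 0 < orderOf u) :
    Polynomial.expand K (orderOf u) (A ^ orderOf u).charpolyRev =
      ∏ i ∈ Finset.range (orderOf u), (u ^ i • A).charpolyRev := by
  set n := orderOf u with hn
  set M : Matrix ι ι K[X] := (X : K[X]) • A.map C with hM
  have hprim : IsPrimitiveRoot (C (C u) : K[X][X]) n := by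
    have h1 : IsPrimitiveRoot u n := IsPrimitiveRoot.orderOf u
    have h2 := h1.map_of_injective (f := (C : K →+* K[X])) C_injective
    exact h2.map_of_injective (f := (C : K[X] →+* K[X][X])) C_injective
  have h1 := prod_one_sub hu hprim (X : K[X][X])
  let φ : K[X][X] →* K[X] := (Matrix.detMonoidHom (n := ι) (R := K[X])).comp
    ((aeval M : K[X][X] →ₐ[K[X]] Matrix ι ι K[X]) : K[X][X] →* Matrix ι ι K[X])
  have hφ : ∀ P : K[X][X], φ P = (aeval M P).det := fun P => rfl
  have h2 := congrArg φ h1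
  rw [map_prod, hφ] at h2
  have h3 : Polynomial.expand K n (A ^ n).charpolyRev = (aeval M (1 - (X : K[X][X]) ^ n)).det := by
    rw [map_sub, map_one, map_pow, aeval_X, hM, _root_.smul_pow]
    unfold Matrix.charpolyRev
    have h1 : (A.map C : Matrix ι ι K[X]) ^ n = (A ^ n).map C := by
      have := map_pow (RingHom.mapMatrix (C : K →+* K[X])) A n
      exact this.symm
    rw [h1, AlgHom.map_det]
    congr 1
    refine Matrix.ext fun i j => ?_
    rw [AlgHom.mapMatrix_apply, Matrix.map_apply, Matrix.sub_apply, Matrix.sub_apply,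
      Matrix.smul_apply, Matrix.smul_apply, Matrix.map_apply, smul_eq_mul, smul_eq_mul, map_sub,
      map_mul, expand_X, expand_C, Matrix.one_apply]
    split_ifs
    · rw [map_one]
    · rw [map_zero]
  rw [h3, ← h2]
  refine Finset.prod_congr rfl fun i _ => ?_
  rw [hφ, map_sub, map_one, map_mul, map_pow, aeval_X, aeval_C]
  unfold Matrix.charpolyRev
  congr 2
  refine Matrix.ext fun k l => ?_
  rw [hM, ← map_pow, ← Algebra.smul_def, Matrix.smul_apply, Matrix.smul_apply, Matrix.smul_apply,
    Matrix.map_apply, Matrix.map_apply, Matrix.smul_apply, smul_eq_mul, smul_eq_mul, smul_eq_mul,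
    smul_eq_mul, C_mul, C_pow]
  ring

theorem kummerChar : KummerChar := by
  intro K _ p _ _ ι _ _ A u hu c d e hd he h
  subst h
  have hp : p ^ c ≠ 0 := pow_ne_zero _ (Fact.out : p.Prime).ne_zero
  have hn0 : orderOf u ≠ 0 := hu.ne'
  have h1 : Polynomial.expand K (orderOf u * p ^ c) (A ^ (orderOf u * p ^ c)).charpolyRev =
      (∏ i ∈ Finset.range (orderOf u), (u ^ i • A).charpolyRev) ^ (p ^ c) := by
    rw [Polynomial.expand_mul, pow_mul, expand_charpolyRev_pow, map_pow, expand_charpolyRev_root A u hu]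
  rw [PowerSeries.expand_mul d hd (orderOf u * p ^ c) (mul_ne_zero hn0 hp), ← Pool.Agent.Y709.Lay.coe_expand, h1,
    Polynomial.coe_pow, map_pow]
  congr 1
  have h2 : ((∏ i ∈ Finset.range (orderOf u), (u ^ i • A).charpolyRev : K[X]) : PowerSeries K) =
      ∏ i ∈ Finset.range (orderOf u), ((u ^ i • A).charpolyRev : PowerSeries K) := by
    rw [← Polynomial.coeToPowerSeries.ringHom_apply, map_prod]
    rfl
  rw [h2, map_prod]

end Pool.Agent.Y710.Kum
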